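import Pool.Agent.H65.AF.Defs

/-!
helper85 (project MP_28250c_AF): the notion of refutation is not degenerate: with three sound schematic rules (weakening,
contraction, cut) every unsatisfiable CNF has a refutation of depth at most 2.
-/

set_option autoImplicit false

namespace ACpFrege

variable {p : ℕ}

/-- Weakening: from `OR(G)` infer `OR(G, D)`. -/
def ruleW (p : ℕ) : Rule p := ⟨[.cn true 1 ![.sq 0]], .cn true 2 ![.sq 0, .sq 1]⟩

/-- Contraction: from `OR(A, G, A, D)` infer `OR(G, A, D)`. -/
def ruleC (p : ℕ) : Rule p := ⟨[.cn true 4 ![.mv 0, .sq 0, .mv 0, .sq 1]], .cn true 3 ![.sq 0, .mv 0, .sq 1]⟩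

/-- Cut: from `OR(G, A)` and `OR(G, ¬A)` infer `OR(G)`. -/
def ruleX (p : ℕ) : Rule p := ⟨[.cn true 2 ![.sq 0, .mv 0], .cn true 2 ![.sq 0, .neg (.mv 0)]], .cn true 1 ![.sq 0]⟩

/-- The three rules. -/
def rules3 (p : ℕ) : List (Rule p) := [ruleW p, ruleC p, ruleX p]

theorem rules3_sound (p : ℕ) : ∀ R ∈ rules3 p, R.Sound := by
  intro R hR
  simp only [rules3, List.mem_cons, List.not_mem_nil, or_false] at hR
  rcases hR with rfl | rfl | rfl
  · intro v w h b hb
    simp only [ruleW, List.mem_singleton, forall_eq] at h hb
    simp only [Sch.ev, List.ofFn_succ, List.ofFn_zero, List.flatten_cons, List.flatten_nil, List.append_nil,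
      Matrix.cons_val_zero, Matrix.cons_val_succ, List.mem_singleton, forall_eq, List.any_append] at h hb
    rw [hb, h, Bool.true_or]
  · intro v w h b hb
    simp only [ruleC, List.mem_singleton, forall_eq] at h hb
    simp only [Sch.ev, List.ofFn_succ, List.ofFn_zero, List.flatten_cons, List.flatten_nil, List.append_nil,
      Matrix.cons_val_zero, Matrix.cons_val_succ, List.mem_singleton, forall_eq, List.any_append, List.any_cons,
      List.any_nil, id] at h hb
    rw [hb]
    revert h
    cases v 0 <;> cases (w 0).any id <;> cases (w 1).any id <;> simp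
  · intro v w h b hb
    simp only [ruleX, List.mem_cons, List.not_mem_nil, or_false, forall_eq_or_imp, forall_eq] at h hb
    simp only [Sch.ev, List.ofFn_succ, List.ofFn_zero, List.flatten_cons, List.flatten_nil, List.append_nil,
      Matrix.cons_val_zero, Matrix.cons_val_succ, List.mem_singleton, forall_eq, List.any_append, List.any_cons,
      List.any_nil, id, List.map_cons, List.map_nil] at h hb
    rw [hb]
    obtain ⟨h1, h2⟩ := h
    revert h1 h2
    cases v 0 <;> cases (w 0).any id <;> simp

/-- The formula of a literal. -/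
def litFm85 (p : ℕ) (l : Lit) : Fm p := if l.2 then .var l.1 else .neg (.var l.1)

theorem clauseFm_eq (C : List Lit) : (clauseFm C : Fm p) = cnL true (C.map (litFm85 p)) := rfl

/-- A derivation: every line follows from the earlier ones. -/
def Dv (S : List (Rule p)) (F : CNF) (π : List (Fm p)) : Prop := ∀ (i : ℕ) (h : i < π.length), Step S F (π.take i) π[i]

theorem Step.mono {S : List (Rule p)} {F : CNF} {l l' : List (Fm p)} {A : Fm p} (h : Step S F l A) (hl : ∀ B ∈ l, B ∈ l') :
    Step S F l' A := by
  rcases h with h | ⟨R, hR, s, G, h1, h2⟩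
  · exact Or.inl h
  · exact Or.inr ⟨R, hR, s, G, h1, fun P hP B hB => hl B (h2 P hP B hB)⟩

theorem Dv.append {S : List (Rule p)} {F : CNF} {π π' : List (Fm p)} (h : Dv S F π) (h' : Dv S F π') : Dv S F (π ++ π') := by
  intro i hi
  by_cases hi' : i < π.length
  · rw [List.getElem_append_left hi', List.take_append_of_le_length hi'.le]
    exact h i hi'
  · push Not at hi'
    have h1 : i - π.length < π'.length := by
      rw [List.length_append] at hi
      omega
    rw [List.getElem_append_right hi']
    refine (h' (i - π.length) h1).mono fun B hB => ?_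
    rw [List.take_append, List.mem_append]
    exact Or.inr hB

theorem Dv.snoc {S : List (Rule p)} {F : CNF} {π : List (Fm p)} {A : Fm p} (h : Dv S F π) (hA : Step S F π A) :
    Dv S F (π ++ [A]) := by
  intro i hi
  by_cases hi' : i < π.length
  · rw [List.getElem_append_left hi', List.take_append_of_le_length hi'.le]
    exact h i hi'
  · push Not at hi'
    have h1 : i = π.length := by
      rw [List.length_append, List.length_singleton] at hi
      omega
    subst h1
    rw [List.getElem_append_right le_rfl, List.take_append_of_le_length le_rfl, List.take_length]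
    simpa using hA

/-- The disjunction of the literals `C` is derivable through disjunctions of literals. -/
def Dl (S : List (Rule p)) (F : CNF) (C : List Lit) : Prop :=
  ∃ π : List (Fm p), Dv S F π ∧ (∀ A ∈ π, ∃ D : List Lit, A = clauseFm D) ∧ clauseFm C ∈ π

theorem Dl.step1 {S : List (Rule p)} {F : CNF} {C D : List Lit} (h : Dl S F C)
    (hs : ∀ π : List (Fm p), clauseFm C ∈ π → Step S F π (clauseFm D)) : Dl S F D := by
  obtain ⟨π, h1, h2, h3⟩ := h
  refine ⟨π ++ [clauseFm D], h1.snoc (hs π h3), ?_, by simp⟩
  intro A hA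
  rcases List.mem_append.1 hA with hA | hA
  · exact h2 A hA
  · exact ⟨D, List.mem_singleton.1 hA⟩

theorem Dl.step2 {S : List (Rule p)} {F : CNF} {C C' D : List Lit} (h : Dl S F C) (h' : Dl S F C')
    (hs : ∀ π : List (Fm p), clauseFm C ∈ π → clauseFm C' ∈ π → Step S F π (clauseFm D)) : Dl S F D := by
  obtain ⟨π, h1, h2, h3⟩ := h
  obtain ⟨π', h1', h2', h3'⟩ := h'
  refine ⟨(π ++ π') ++ [clauseFm D], (h1.append h1').snoc (hs _ (List.mem_append_left _ h3) (List.mem_append_right _ h3')), ?_,
    by simp⟩
  intro A hA
  rcases List.mem_append.1 hA with hA | hA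
  · rcases List.mem_append.1 hA with hA | hA
    · exact h2 A hA
    · exact h2' A hA
  · exact ⟨D, List.mem_singleton.1 hA⟩

theorem Dl.weak {F : CNF} {C : List Lit} (h : Dl (rules3 p) F C) (D : List Lit) : Dl (rules3 p) F (C ++ D) := by
  refine h.step1 fun π hπ => Or.inr ⟨ruleW p, by simp [rules3], fun _ => .var 0,
    fun j => if j = 0 then C.map (litFm85 p) else D.map (litFm85 p), ?_, ?_⟩
  · simp [ruleW, Sch.inst, List.ofFn_succ, clauseFm_eq]
  · intro P hP B hB
    simp only [ruleW, List.mem_singleton] at hP
    subst hP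
    simp [Sch.inst, List.ofFn_succ] at hB
    rw [hB]
    exact hπ

theorem Dl.contr {F : CNF} {l : Lit} {C D : List Lit} (h : Dl (rules3 p) F (l :: (C ++ l :: D))) :
    Dl (rules3 p) F (C ++ l :: D) := by
  refine h.step1 fun π hπ => Or.inr ⟨ruleC p, by simp [rules3], fun _ => litFm85 p l,
    fun j => if j = 0 then C.map (litFm85 p) else D.map (litFm85 p), ?_, ?_⟩
  · simp [ruleC, Sch.inst, List.ofFn_succ, clauseFm_eq]
  · intro P hP B hB
    simp only [ruleC, List.mem_singleton] at hP
    subst hP
    simp [Sch.inst, List.ofFn_succ] at hB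
    rw [hB]
    simpa [clauseFm_eq] using hπ

theorem Dl.cut {F : CNF} {x : ℕ} {C : List Lit} (h : Dl (rules3 p) F (C ++ [(x, true)]))
    (h' : Dl (rules3 p) F (C ++ [(x, false)])) : Dl (rules3 p) F C := by
  refine h.step2 h' fun π hπ hπ' => Or.inr ⟨ruleX p, by simp [rules3], fun _ => .var x, fun _ => C.map (litFm85 p), ?_, ?_⟩
  · simp [ruleX, Sch.inst, List.ofFn_succ, clauseFm_eq]
  · intro P hP B hB
    simp only [ruleX, List.mem_cons, List.not_mem_nil, or_false] at hP
    rcases hP with rfl | rfl
    · simp [Sch.inst, List.ofFn_succ] at hB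
      rw [hB]
      simpa [clauseFm_eq, litFm85] using hπ
    · simp [Sch.inst, List.ofFn_succ] at hB
      rw [hB]
      simpa [clauseFm_eq, litFm85] using hπ'

/-- A clause all of whose literals occur in `D`. -/
theorem Dl.sub {F : CNF} {D : List Lit} (C : List Lit) (hC : ∀ l ∈ C, l ∈ D) (h : Dl (rules3 p) F (C ++ D)) :
    Dl (rules3 p) F D := by
  induction C with
  | nil => exact h
  | cons l C ih =>
      have hl : l ∈ C ++ D := List.mem_append_right _ (hC l List.mem_cons_self)
      obtain ⟨s, t, hst⟩ := List.append_of_mem hl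
      refine ih (fun l' hl' => hC l' (List.mem_cons_of_mem _ hl')) ?_
      rw [hst]
      refine Dl.contr ?_
      rw [← hst]
      exact h

/-- The literals falsified by `a` with variables below `k`. -/
def neglits (a : ℕ → Bool) (k : ℕ) : List Lit := (List.range k).map fun x => (x, !a x)

theorem neglits_succ (a : ℕ → Bool) (k : ℕ) : neglits a (k + 1) = neglits a k ++ [(k, !a k)] := by
  simp [neglits, List.range_succ]

theorem neglits_update (a : ℕ → Bool) (k : ℕ) (b : Bool) : neglits (Function.update a k b) k = neglits a k := by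
  unfold neglits
  refine List.map_congr_left fun x hx => ?_
  rw [List.mem_range] at hx
  rw [Function.update_of_ne (by omega)]

theorem Dl_all {F : CNF} (hF : F.Unsat) {n : ℕ} (hn : ∀ C ∈ F, ∀ l ∈ C, l.1 < n) (j : ℕ) (hj : j ≤ n) :
    ∀ a : ℕ → Bool, Dl (rules3 p) F (neglits a (n - j)) := by
  induction j with
  | zero =>
      intro a
      rw [Nat.sub_zero]
      obtain ⟨C, hC, h⟩ := hF a
      refine Dl.sub C (fun l hl => ?_) (Dl.weak ?_ _)
      · refine List.mem_map.2 ⟨l.1, List.mem_range.2 (hn C hC l hl), ?_⟩
        have h1 := h l hl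
        ext1
        · rfl
        · show (!a l.1) = l.2
          revert h1
          cases a l.1 <;> cases l.2 <;> simp
      · refine ⟨[clauseFm C], ?_, ?_, by simp⟩
        · intro i hi
          have h0 : i = 0 := by
            rw [List.length_singleton] at hi
            omega
          subst h0
          exact Or.inl ⟨C, hC, rfl⟩
        · intro A hA
          exact ⟨C, List.mem_singleton.1 hA⟩
  | succ j ih =>
      intro a
      have h1 : n - j = (n - (j + 1)) + 1 := by omega
      have h2 := ih (by omega) (Function.update a (n - (j + 1)) false)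
      have h3 := ih (by omega) (Function.update a (n - (j + 1)) true)
      rw [h1, neglits_succ, neglits_update, Function.update_self] at h2 h3
      exact Dl.cut h2 h3

theorem CNF.bound (F : CNF) : ∃ n, ∀ C ∈ F, ∀ l ∈ C, l.1 < n := by
  induction F with
  | nil => exact ⟨0, by simp⟩
  | cons C F ih =>
      obtain ⟨n, hn⟩ := ih
      have h : ∀ C : List Lit, ∃ m, ∀ l ∈ C, l.1 < m := by
        intro C
        induction C with
        | nil => exact ⟨0, by simp⟩
        | cons l C ih =>
            obtain ⟨m, hm⟩ := ih
            refine ⟨max m (l.1 + 1), fun l' hl' => ?_⟩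
            rcases List.mem_cons.1 hl' with rfl | hl'
            · omega
            · have := hm l' hl'
              omega
      obtain ⟨m, hm⟩ := h C
      refine ⟨max n m, fun C' hC' l hl => ?_⟩
      rcases List.mem_cons.1 hC' with rfl | hC'
      · have := hm l hl
        omega
      · have := hn C' hC' l hl
        omega

theorem depth_clauseFm (C : List Lit) : (clauseFm C : Fm p).depth ≤ 2 := by
  show (1 + Finset.univ.sup fun i => ((C.map (litFm85 p)).get i).dep 2) ≤ 2
  have : (Finset.univ.sup fun i => ((C.map (litFm85 p)).get i).dep 2) ≤ 1 := by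
    refine Finset.sup_le fun i _ => ?_
    obtain ⟨l, _, hl⟩ := List.mem_map.1 (List.get_mem (C.map (litFm85 p)) i)
    rw [← hl]
    unfold litFm85
    split_ifs
    · exact Nat.zero_le _
    · exact le_rfl
  omega

/-- Completeness: every unsatisfiable CNF has a refutation of depth at most 2 with the three rules. -/
theorem complete3 (p : ℕ) {F : CNF} (hF : F.Unsat) : ∃ π : List (Fm p), Refutes (rules3 p) 2 F π := by
  obtain ⟨n, hn⟩ := F.bound
  have h := Dl_all (p := p) hF hn n le_rfl (fun _ => true)
  rw [Nat.sub_self] at h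
  obtain ⟨π, h1, h2, h3⟩ := h
  refine ⟨π, ?_, h1, h3⟩
  intro A hA
  obtain ⟨D, rfl⟩ := h2 A hA
  exact depth_clauseFm D

end ACpFrege
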